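import Pool.Agent.Helper69.RK.StE

/-! Entropy library, module E2: dependence. -/

namespace Pool.Agent.Helper69.RK

open Finset

theorem e2_pr_congr {Ω α β : Type} [Fintype Ω] (μ : Ω → ℝ) (f : Ω → α) (g : Ω → β) (ω : Ω)
    (h : ∀ ω', μ ω' ≠ 0 → (f ω' = f ω ↔ g ω' = g ω)) : pr μ f ω = pr μ g ω := by
  unfold pr
  refine Finset.sum_congr rfl fun ω' _ => ?_
  by_cases h0 : μ ω' = 0
  · rw [h0]
    simp only [ite_self]
  · by_cases h1 : f ω' = f ω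
    · rw [if_pos h1, if_pos ((h ω' h0).1 h1)]
    · rw [if_neg h1, if_neg (fun h2 => h1 ((h ω' h0).2 h2))]

/-- entropies agree if the atoms agree on the support -/
theorem e2_CH_congr {Ω α β α' β' : Type} [Fintype Ω] (μ : Ω → ℝ) (f : Ω → α) (g : Ω → β) (f' : Ω → α')
    (g' : Ω → β') (h1 : ∀ ω ω', μ ω ≠ 0 → μ ω' ≠ 0 → (g ω' = g ω ↔ g' ω' = g' ω))
    (h2 : ∀ ω ω', μ ω ≠ 0 → μ ω' ≠ 0 → ((f ω', g ω') = (f ω, g ω) ↔ (f' ω', g' ω') = (f' ω, g' ω))) :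
    CH μ f g = CH μ f' g' := by
  unfold CH
  refine Finset.sum_congr rfl fun ω _ => ?_
  by_cases h0 : μ ω = 0
  · rw [h0, zero_mul, zero_mul]
  · rw [e2_pr_congr μ g g' ω (fun ω' h => h1 ω ω' h0 h),
      e2_pr_congr μ (fun ω' => (f ω', g ω')) (fun ω' => (f' ω', g' ω')) ω (fun ω' h => h2 ω ω' h0 h)]

theorem e2_zero {Ω α γ : Type} [Fintype Ω] (μ : Ω → ℝ) (f : Ω → α) (g : Ω → γ) (hd : Dep μ g f) :
    CH μ f g = 0 := by
  unfold CH
  refine Finset.sum_eq_zero fun ω _ => ?_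
  by_cases h0 : μ ω = 0
  · rw [h0, zero_mul]
  · rw [e2_pr_congr μ g (fun ω' => (f ω', g ω')) ω ?_, sub_self, mul_zero]
    intro ω' h0'
    constructor
    · intro h
      exact Prod.ext (hd ω' ω h0' h0 h) h
    · intro h
      exact (Prod.ext_iff.1 h).2

theorem st_E2 (h1 : ST_E1) : ST_E2 := by
  refine ⟨?_, ?_, ?_⟩
  · intro Ω α α' γ _ μ f f' g hμ hd
    have a1 := (h1 Ω α α' γ μ f f' g hμ).2.1
    have a2 := (h1 Ω α' α γ μ f' f g hμ).2.1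
    have a3 := (h1 Ω α' α (α × γ) μ f' f (fun ω => (f ω, g ω)) hμ).1
    have a4 : CH μ f (fun ω => (f' ω, g ω)) = 0 := e2_zero μ f _ hd
    have a5 : CH μ (fun ω => (f ω, f' ω)) g = CH μ (fun ω => (f' ω, f ω)) g := by
      refine e2_CH_congr μ _ _ _ _ (fun ω ω' _ _ => Iff.rfl) (fun ω ω' _ _ => ?_)
      simp only [Prod.mk.injEq]
      tauto
    linarith
  · intro Ω α γ γ' _ μ f g g' hμ hd
    have a1 := (h1 Ω α γ' γ μ f g' g hμ).2.2
    have a2 : CH μ f (fun ω => (g' ω, g ω)) = CH μ f g' := by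
      refine e2_CH_congr μ _ _ _ _ (fun ω ω' h0 h0' => ?_) (fun ω ω' h0 h0' => ?_)
      · simp only [Prod.mk.injEq]
        exact ⟨fun h => h.1, fun h => ⟨h, hd ω' ω h0' h0 h⟩⟩
      · simp only [Prod.mk.injEq]
        exact ⟨fun h => ⟨h.1, h.2.1⟩, fun h => ⟨h.1, h.2, hd ω' ω h0' h0 h.2⟩⟩
    linarith
  · intro Ω α γ _ μ f g _ hd
    exact e2_zero μ f g hd

end Pool.Agent.Helper69.RK
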