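import Pool.Agent.Helper69.RK.StE

/-! Entropy library, module E3: number of values. -/

namespace Pool.Agent.Helper69.RK

open Finset

theorem e3_pr_nonneg {Ω α : Type} [Fintype Ω] (μ : Ω → ℝ) (f : Ω → α) (hμ : ∀ ω, 0 ≤ μ ω) (ω : Ω) :
    0 ≤ pr μ f ω := by
  unfold pr
  refine Finset.sum_nonneg fun ω' _ => ?_
  split_ifs
  · exact hμ ω'
  · exact le_rfl

theorem e3_sum_le_pr {Ω α : Type} [Fintype Ω] (μ : Ω → ℝ) (f : Ω → α) (hμ : ∀ ω, 0 ≤ μ ω) (ω : Ω)
    (S : Finset Ω) (hS : ∀ ω' ∈ S, f ω' = f ω) : ∑ ω' ∈ S, μ ω' ≤ pr μ f ω := by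
  unfold pr
  rw [← Finset.sum_filter]
  refine Finset.sum_le_sum_of_subset_of_nonneg ?_ (fun ω' _ _ => hμ ω')
  intro ω' hω'
  simp only [Finset.mem_filter, Finset.mem_univ, true_and]
  exact hS ω' hω'

theorem e3_pr_pos {Ω α : Type} [Fintype Ω] (μ : Ω → ℝ) (f : Ω → α) (hμ : ∀ ω, 0 ≤ μ ω) (ω : Ω)
    (h : μ ω ≠ 0) : 0 < pr μ f ω := by
  have h1 := e3_sum_le_pr μ f hμ ω {ω} (fun ω' h' => by rw [Finset.mem_singleton.1 h'])
  rw [Finset.sum_singleton] at h1
  exact lt_of_lt_of_le (lt_of_le_of_ne (hμ ω) (Ne.symm h)) h1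

theorem e3_pr_atom {Ω α : Type} [Fintype Ω] (μ : Ω → ℝ) (f : Ω → α) (ω ω' : Ω) (h : f ω = f ω') :
    pr μ f ω = pr μ f ω' := by
  unfold pr
  rw [h]

theorem e3_gibbs {Ω : Type} [Fintype Ω] (μ q : Ω → ℝ) (hμ : ∀ ω, 0 ≤ μ ω) (hq : ∀ ω, μ ω ≠ 0 → 0 < q ω)
    (h : ∑ ω, μ ω * q ω ≤ ∑ ω, μ ω) : ∑ ω, μ ω * Real.logb 2 (q ω) ≤ 0 := by
  have h2 : 0 < Real.log 2 := Real.log_pos (by norm_num)
  have h3 : ∑ ω, μ ω * Real.logb 2 (q ω) ≤ ∑ ω, (μ ω * q ω - μ ω) / Real.log 2 := by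
    refine Finset.sum_le_sum fun ω _ => ?_
    by_cases h0 : μ ω = 0
    · simp [h0]
    · have h5 : Real.logb 2 (q ω) ≤ (q ω - 1) / Real.log 2 := by
        unfold Real.logb
        exact div_le_div_of_nonneg_right (Real.log_le_sub_one_of_pos (hq ω h0)) h2.le
      have h4 := mul_le_mul_of_nonneg_left h5 (hμ ω)
      calc μ ω * Real.logb 2 (q ω) ≤ μ ω * ((q ω - 1) / Real.log 2) := h4
        _ = (μ ω * q ω - μ ω) / Real.log 2 := by ring
  refine h3.trans ?_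
  rw [← Finset.sum_div, Finset.sum_sub_distrib]
  exact div_nonpos_of_nonpos_of_nonneg (by linarith) h2.le

open Classical in
/-- the sum of `μ / pr (f, g)` over the support in an atom of `g` is at most the number of values of `f` -/
theorem e3_sum_atom {Ω α γ : Type} [Fintype Ω] (μ : Ω → ℝ) (f : Ω → α) (g : Ω → γ) (hμ : ∀ ω, 0 ≤ μ ω)
    (ω1 : Ω) :
    ∑ ω ∈ (univ : Finset Ω).filter (fun ω' => μ ω' ≠ 0 ∧ g ω' = g ω1), μ ω / pr μ (fun ω' => (f ω', g ω')) ω ≤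
      ((((univ : Finset Ω).filter (fun ω' => μ ω' ≠ 0 ∧ g ω' = g ω1)).image f).card : ℝ) := by
  set S := (univ : Finset Ω).filter (fun ω' => μ ω' ≠ 0 ∧ g ω' = g ω1) with hS
  rw [← Finset.sum_fiberwise_of_maps_to (s := S) (t := S.image f) (g := f)
    (fun ω hω => Finset.mem_image_of_mem f hω)]
  have h1 : ∀ v ∈ S.image f, ∑ ω ∈ S.filter (fun ω => f ω = v), μ ω / pr μ (fun ω' => (f ω', g ω')) ω ≤ 1 := by
    intro v hv
    obtain ⟨ω0, hω0, hv0⟩ := Finset.mem_image.1 hv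
    have hg0 : g ω0 = g ω1 := by
      simp only [hS, Finset.mem_filter] at hω0
      exact hω0.2.2
    have h2 : ∀ ω ∈ S.filter (fun ω => f ω = v), (f ω, g ω) = (f ω0, g ω0) := by
      intro ω hω
      simp only [hS, Finset.mem_filter, Finset.mem_univ, true_and] at hω
      exact Prod.ext (hω.2.trans hv0.symm) (hω.1.2.trans hg0.symm)
    have h3 : ∀ ω ∈ S.filter (fun ω => f ω = v), μ ω / pr μ (fun ω' => (f ω', g ω')) ω =
        μ ω / pr μ (fun ω' => (f ω', g ω')) ω0 := by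
      intro ω hω
      rw [e3_pr_atom μ (fun ω' => (f ω', g ω')) ω ω0 (h2 ω hω)]
    rw [Finset.sum_congr rfl h3, ← Finset.sum_div]
    exact div_le_one_of_le₀ (e3_sum_le_pr μ (fun ω' => (f ω', g ω')) hμ ω0 _ h2) (e3_pr_nonneg μ _ hμ ω0)
  refine (Finset.sum_le_sum h1).trans ?_
  simp

open Classical in
theorem e3_card {Ω α γ : Type} [Fintype Ω] (μ : Ω → ℝ) (f : Ω → α) (g : Ω → γ) (c : Ω → ℝ)
    (hμ : ∀ ω, 0 ≤ μ ω)
    (hc : ∀ ω, μ ω ≠ 0 → ((((univ : Finset Ω).filter (fun ω' => μ ω' ≠ 0 ∧ g ω' = g ω)).image f).card : ℝ) ≤ c ω) :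
    CH μ f g ≤ ∑ ω, μ ω * Real.logb 2 (c ω) := by
  set N : Ω → ℝ := fun ω => ((((univ : Finset Ω).filter (fun ω' => μ ω' ≠ 0 ∧ g ω' = g ω)).image f).card : ℝ) with hN
  have hN1 : ∀ ω, μ ω ≠ 0 → 1 ≤ N ω := by
    intro ω h0
    have : 1 ≤ (((univ : Finset Ω).filter (fun ω' => μ ω' ≠ 0 ∧ g ω' = g ω)).image f).card := by
      refine Finset.card_pos.2 ⟨f ω, Finset.mem_image_of_mem f ?_⟩
      rw [Finset.mem_filter]
      exact ⟨Finset.mem_univ _, h0, rfl⟩
    show (1 : ℝ) ≤ ((((univ : Finset Ω).filter (fun ω' => μ ω' ≠ 0 ∧ g ω' = g ω)).image f).card : ℝ)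
    exact_mod_cast this
  have hNat : ∀ ω ω', g ω = g ω' → N ω = N ω' := by
    intro ω ω' h
    simp only [hN, h]
  have h1 : ∑ ω, μ ω * Real.logb 2 (N ω) ≤ ∑ ω, μ ω * Real.logb 2 (c ω) := by
    refine Finset.sum_le_sum fun ω _ => ?_
    by_cases h0 : μ ω = 0
    · rw [h0, zero_mul, zero_mul]
    · refine mul_le_mul_of_nonneg_left ?_ (hμ ω)
      exact Real.logb_le_logb_of_le (by norm_num) (lt_of_lt_of_le zero_lt_one (hN1 ω h0)) (hc ω h0)
  refine le_trans ?_ h1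
  have key : ∑ ω, μ ω * Real.logb 2 (pr μ g ω / (pr μ (fun ω' => (f ω', g ω')) ω * N ω)) ≤ 0 := by
    refine e3_gibbs μ _ hμ ?_ ?_
    · intro ω h0
      exact div_pos (e3_pr_pos μ g hμ ω h0)
        (mul_pos (e3_pr_pos μ _ hμ ω h0) (lt_of_lt_of_le zero_lt_one (hN1 ω h0)))
    · have e1 : ∀ ω, μ ω * (pr μ g ω / (pr μ (fun ω' => (f ω', g ω')) ω * N ω)) =
          ∑ ω1, (if g ω1 = g ω then μ ω1 else 0) * (μ ω / pr μ (fun ω' => (f ω', g ω')) ω / N ω) := by
        intro ω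
        rw [← Finset.sum_mul]
        have : pr μ g ω = ∑ ω1, (if g ω1 = g ω then μ ω1 else 0) := rfl
        rw [← this, div_div]
        ring
      rw [Finset.sum_congr rfl (fun ω _ => e1 ω), Finset.sum_comm]
      refine Finset.sum_le_sum fun ω1 _ => ?_
      by_cases h0 : μ ω1 = 0
      · refine le_of_eq ?_
        rw [h0]
        refine Finset.sum_eq_zero fun ω _ => ?_
        rw [ite_self, zero_mul]
      set S := (univ : Finset Ω).filter (fun ω' => μ ω' ≠ 0 ∧ g ω' = g ω1) with hS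
      have e2 : ∑ ω, (if g ω1 = g ω then μ ω1 else 0) * (μ ω / pr μ (fun ω' => (f ω', g ω')) ω / N ω) =
          ∑ ω ∈ S, μ ω1 / N ω1 * (μ ω / pr μ (fun ω' => (f ω', g ω')) ω) := by
        rw [← Finset.sum_subset (Finset.subset_univ S)]
        · refine Finset.sum_congr rfl fun ω hω => ?_
          simp only [hS, Finset.mem_filter, Finset.mem_univ, true_and] at hω
          rw [if_pos hω.2.symm, hNat ω ω1 hω.2]
          ring
        · intro ω _ hω
          simp only [hS, Finset.mem_filter, Finset.mem_univ, true_and, not_and_or, not_not] at hω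
          rcases hω with hω | hω
          · rw [hω, zero_div, zero_div, mul_zero]
          · rw [if_neg (fun hh => hω hh.symm), zero_mul]
      rw [e2, ← Finset.mul_sum]
      have hN0 : 0 < N ω1 := lt_of_lt_of_le zero_lt_one (hN1 ω1 h0)
      have e3 := e3_sum_atom μ f g hμ ω1
      calc μ ω1 / N ω1 * ∑ ω ∈ S, μ ω / pr μ (fun ω' => (f ω', g ω')) ω ≤ μ ω1 / N ω1 * N ω1 :=
            mul_le_mul_of_nonneg_left e3 (div_nonneg (hμ ω1) hN0.le)
        _ = μ ω1 := div_mul_cancel₀ _ hN0.ne'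
  unfold CH
  rw [← sub_nonpos, ← Finset.sum_sub_distrib]
  refine le_trans (le_of_eq (Finset.sum_congr rfl fun ω _ => ?_)) key
  by_cases h0 : μ ω = 0
  · rw [h0]
    ring
  · have a1 := e3_pr_pos μ g hμ ω h0
    have a2 := e3_pr_pos μ (fun ω' => (f ω', g ω')) hμ ω h0
    have a3 : 0 < N ω := lt_of_lt_of_le zero_lt_one (hN1 ω h0)
    rw [Real.logb_div a1.ne' (mul_pos a2 a3).ne', Real.logb_mul a2.ne' a3.ne']
    ring

/-- a finite set of integer vectors of small diameter -/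
theorem e3_box {m : ℕ} (T : Finset (Fin m → ℤ)) (K : ℝ) (hK : 0 ≤ K)
    (h : ∀ x ∈ T, ∀ y ∈ T, ∀ i, |(x i : ℝ) - y i| ≤ K) : (T.card : ℝ) ≤ (K + 1) ^ m := by
  classical
  have hf : (0 : ℤ) ≤ ⌊K⌋ := Int.floor_nonneg.2 hK
  rcases T.eq_empty_or_nonempty with rfl | ⟨x0, hx0⟩
  · simp only [Finset.card_empty, Nat.cast_zero]
    positivity
  · have h1 : T ⊆ Fintype.piFinset (fun i => T.image (fun x => x i)) := by
      intro x hx
      rw [Fintype.mem_piFinset]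
      intro i
      exact Finset.mem_image_of_mem (fun x : Fin m → ℤ => x i) hx
    have h2 : ∀ i, ((T.image (fun x => x i)).card : ℝ) ≤ K + 1 := by
      intro i
      have hne : (T.image (fun x => x i)).Nonempty := ⟨x0 i, Finset.mem_image_of_mem (fun x : Fin m → ℤ => x i) hx0⟩
      set lo := (T.image (fun x => x i)).min' hne with hlo
      have hlom : lo ∈ T.image (fun x => x i) := Finset.min'_mem _ _
      obtain ⟨xl, hxl, hxle⟩ := Finset.mem_image.1 hlom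
      have hsub : T.image (fun x => x i) ⊆ Finset.Icc lo (lo + ⌊K⌋) := by
        intro v hv
        obtain ⟨x, hx, hxv⟩ := Finset.mem_image.1 hv
        rw [Finset.mem_Icc]
        refine ⟨Finset.min'_le _ _ hv, ?_⟩
        have h3 := h x hx xl hxl i
        rw [hxv, hxle] at h3
        have h4 : ((v - lo : ℤ) : ℝ) ≤ K := by
          push_cast
          exact (le_abs_self _).trans h3
        have h5 : v - lo ≤ ⌊K⌋ := Int.le_floor.2 h4
        linarith
      have h6 := Finset.card_le_card hsub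
      rw [Int.card_Icc] at h6
      have h7 : (((lo + ⌊K⌋ + 1 - lo).toNat : ℕ) : ℝ) = (⌊K⌋ : ℝ) + 1 := by
        have h8 : lo + ⌊K⌋ + 1 - lo = ⌊K⌋ + 1 := by ring
        rw [h8]
        have h9 : (((⌊K⌋ + 1).toNat : ℕ) : ℤ) = ⌊K⌋ + 1 := Int.toNat_of_nonneg (by linarith)
        have h10 : ((((⌊K⌋ + 1).toNat : ℕ) : ℤ) : ℝ) = ((⌊K⌋ + 1 : ℤ) : ℝ) := by rw [h9]
        push_cast at h10
        exact h10
      have h8 : ((T.image (fun x => x i)).card : ℝ) ≤ (((lo + ⌊K⌋ + 1 - lo).toNat : ℕ) : ℝ) := by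
        exact_mod_cast h6
      rw [h7] at h8
      have h9 : (⌊K⌋ : ℝ) ≤ K := Int.floor_le K
      linarith
    have h3 := Finset.card_le_card h1
    rw [Fintype.card_piFinset] at h3
    calc (T.card : ℝ) ≤ ((∏ i : Fin m, (T.image (fun x => x i)).card : ℕ) : ℝ) := by exact_mod_cast h3
      _ = ∏ i : Fin m, ((T.image (fun x => x i)).card : ℝ) := by push_cast; rfl
      _ ≤ ∏ _i : Fin m, (K + 1) := Finset.prod_le_prod (fun i _ => Nat.cast_nonneg _) (fun i _ => h2 i)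
      _ = (K + 1) ^ m := by simp

theorem e3_mem_image {α β : Type} {inst : DecidableEq β} {f : α → β} {s : Finset α} {b : β}
    (h : b ∈ @Finset.image α β inst f s) : ∃ a ∈ s, f a = b := Finset.mem_image.1 h

theorem st_E3 : ST_E3 := by
  classical
  refine ⟨?_, ?_⟩
  · intro Ω α γ _ μ f g c hμ hc
    exact e3_card μ f g c hμ hc
  · intro Ω γ _ m μ X g K hμ hK hX
    have h1 := e3_card μ X g (fun _ => (K + 1) ^ m) hμ ?_
    · refine h1.trans (le_of_eq ?_)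
      unfold mass
      rw [← Finset.sum_mul, Real.logb_pow]
      ring
    · intro ω h0
      refine e3_box _ K hK ?_
      intro x hx y hy i
      obtain ⟨ω1, hω1, rfl⟩ := e3_mem_image hx
      obtain ⟨ω2, hω2, rfl⟩ := e3_mem_image hy
      simp only [Finset.mem_filter, Finset.mem_univ, true_and] at hω1 hω2
      exact hX ω1 ω2 hω1.1 hω2.1 (hω1.2.trans hω2.2.symm) i

end Pool.Agent.Helper69.RK
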