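import Pool.Agent.Helper69.RK.StE

/-! Entropy library, module E1: nonnegativity, chain rule, submodularity. -/

namespace Pool.Agent.Helper69.RK

open Finset

open Classical in
theorem e1_pr_eq {Ω α : Type} [Fintype Ω] (μ : Ω → ℝ) (f : Ω → α) (ω : Ω) :
    pr μ f ω = ∑ ω' : Ω, if f ω' = f ω then μ ω' else 0 := by
  unfold pr
  refine Finset.sum_congr rfl fun ω' _ => ?_
  by_cases h : f ω' = f ω
  · simp [h]
  · simp [h]

theorem e1_pr_nonneg {Ω α : Type} [Fintype Ω] (μ : Ω → ℝ) (f : Ω → α) (hμ : ∀ ω, 0 ≤ μ ω) (ω : Ω) :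
    0 ≤ pr μ f ω := by
  rw [e1_pr_eq]
  refine Finset.sum_nonneg fun ω' _ => ?_
  split_ifs
  · exact hμ ω'
  · exact le_rfl

theorem e1_le_pr {Ω α : Type} [Fintype Ω] (μ : Ω → ℝ) (f : Ω → α) (hμ : ∀ ω, 0 ≤ μ ω) (ω : Ω) :
    μ ω ≤ pr μ f ω := by
  classical
  rw [e1_pr_eq]
  have h := Finset.single_le_sum (f := fun ω' : Ω => if f ω' = f ω then μ ω' else 0)
    (fun ω' _ => by
      show (0 : ℝ) ≤ if f ω' = f ω then μ ω' else 0
      split_ifs
      · exact hμ ω'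
      · exact le_rfl) (Finset.mem_univ ω)
  simpa using h

theorem e1_pr_pos {Ω α : Type} [Fintype Ω] (μ : Ω → ℝ) (f : Ω → α) (hμ : ∀ ω, 0 ≤ μ ω) (ω : Ω)
    (h : μ ω ≠ 0) : 0 < pr μ f ω :=
  lt_of_lt_of_le (lt_of_le_of_ne (hμ ω) (Ne.symm h)) (e1_le_pr μ f hμ ω)

/-- a finer variable has smaller atoms -/
theorem e1_pr_mono {Ω α β : Type} [Fintype Ω] (μ : Ω → ℝ) (f : Ω → α) (g : Ω → β) (hμ : ∀ ω, 0 ≤ μ ω) (ω : Ω)
    (h : ∀ ω', μ ω' ≠ 0 → f ω' = f ω → g ω' = g ω) : pr μ f ω ≤ pr μ g ω := by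
  classical
  rw [e1_pr_eq, e1_pr_eq]
  refine Finset.sum_le_sum fun ω' _ => ?_
  by_cases h0 : μ ω' = 0
  · simp [h0]
  by_cases h1 : f ω' = f ω
  · rw [if_pos h1, if_pos (h ω' h0 h1)]
  · rw [if_neg h1]
    split_ifs
    · exact hμ ω'
    · exact le_rfl

theorem e1_pr_congr {Ω α β : Type} [Fintype Ω] (μ : Ω → ℝ) (f : Ω → α) (g : Ω → β) (ω : Ω)
    (h : ∀ ω', μ ω' ≠ 0 → (f ω' = f ω ↔ g ω' = g ω)) : pr μ f ω = pr μ g ω := by
  classical
  rw [e1_pr_eq, e1_pr_eq]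
  refine Finset.sum_congr rfl fun ω' _ => ?_
  by_cases h0 : μ ω' = 0
  · simp [h0]
  · by_cases h1 : f ω' = f ω
    · rw [if_pos h1, if_pos ((h ω' h0).1 h1)]
    · rw [if_neg h1, if_neg (fun h2 => h1 ((h ω' h0).2 h2))]

theorem e1_pr_atom {Ω α : Type} [Fintype Ω] (μ : Ω → ℝ) (f : Ω → α) (ω ω' : Ω) (h : f ω = f ω') :
    pr μ f ω = pr μ f ω' := by
  unfold pr
  rw [h]

/-- the sum of `μ / pr` over a set on which `f` is constant is at most one -/
theorem e1_sum_div_le {Ω α : Type} [Fintype Ω] (μ : Ω → ℝ) (f : Ω → α) (hμ : ∀ ω, 0 ≤ μ ω) (S : Finset Ω)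
    (hS : ∀ ω ∈ S, ∀ ω' ∈ S, f ω = f ω') : ∑ ω ∈ S, μ ω / pr μ f ω ≤ 1 := by
  classical
  rcases S.eq_empty_or_nonempty with rfl | ⟨ω0, h0⟩
  · simp
  · have h1 : ∀ ω ∈ S, μ ω / pr μ f ω = μ ω / pr μ f ω0 := fun ω hω => by
      rw [e1_pr_atom μ f ω ω0 (hS ω hω ω0 h0)]
    rw [Finset.sum_congr rfl h1, ← Finset.sum_div]
    have h2 : ∑ ω ∈ S, μ ω ≤ pr μ f ω0 := by
      rw [e1_pr_eq, ← Finset.sum_filter]
      refine Finset.sum_le_sum_of_subset_of_nonneg ?_ (fun ω _ _ => hμ ω)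
      intro ω hω
      simp only [Finset.mem_filter, Finset.mem_univ, true_and]
      exact hS ω hω ω0 h0
    exact div_le_one_of_le₀ h2 (e1_pr_nonneg μ f hμ ω0)

theorem e1_log_le {x : ℝ} (hx : 0 < x) : Real.logb 2 x ≤ (x - 1) / Real.log 2 := by
  unfold Real.logb
  have h2 : 0 < Real.log 2 := Real.log_pos (by norm_num)
  exact div_le_div_of_nonneg_right (Real.log_le_sub_one_of_pos hx) h2.le

/-- Gibbs: `∑ μ log q ≤ 0` if `∑ μ q ≤ ∑ μ` -/
theorem e1_gibbs {Ω : Type} [Fintype Ω] (μ q : Ω → ℝ) (hμ : ∀ ω, 0 ≤ μ ω) (hq : ∀ ω, μ ω ≠ 0 → 0 < q ω)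
    (h : ∑ ω, μ ω * q ω ≤ ∑ ω, μ ω) : ∑ ω, μ ω * Real.logb 2 (q ω) ≤ 0 := by
  have h2 : 0 < Real.log 2 := Real.log_pos (by norm_num)
  have h3 : ∑ ω, μ ω * Real.logb 2 (q ω) ≤ ∑ ω, (μ ω * q ω - μ ω) / Real.log 2 := by
    refine Finset.sum_le_sum fun ω _ => ?_
    by_cases h0 : μ ω = 0
    · simp [h0]
    · have h4 := mul_le_mul_of_nonneg_left (e1_log_le (hq ω h0)) (hμ ω)
      calc μ ω * Real.logb 2 (q ω) ≤ μ ω * ((q ω - 1) / Real.log 2) := h4
        _ = (μ ω * q ω - μ ω) / Real.log 2 := by ring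
  refine h3.trans ?_
  rw [← Finset.sum_div, Finset.sum_sub_distrib]
  exact div_nonpos_of_nonpos_of_nonneg (by linarith) h2.le

theorem e1_nonneg {Ω α γ : Type} [Fintype Ω] (μ : Ω → ℝ) (f : Ω → α) (g : Ω → γ) (hμ : ∀ ω, 0 ≤ μ ω) :
    0 ≤ CH μ f g := by
  unfold CH
  refine Finset.sum_nonneg fun ω _ => ?_
  by_cases h0 : μ ω = 0
  · simp [h0]
  · refine mul_nonneg (hμ ω) (sub_nonneg.2 ?_)
    refine Real.logb_le_logb_of_le (by norm_num) (e1_pr_pos μ _ hμ ω h0) ?_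
    exact e1_pr_mono μ _ _ hμ ω (fun ω' _ h => (Prod.ext_iff.1 h).2)

theorem e1_chain {Ω α β γ : Type} [Fintype Ω] (μ : Ω → ℝ) (f : Ω → α) (h : Ω → β) (g : Ω → γ) :
    CH μ (fun ω => (f ω, h ω)) g = CH μ f g + CH μ h (fun ω => (f ω, g ω)) := by
  unfold CH
  rw [← Finset.sum_add_distrib]
  refine Finset.sum_congr rfl fun ω _ => ?_
  have h1 : pr μ (fun ω' => ((f ω', h ω'), g ω')) ω = pr μ (fun ω' => (h ω', (f ω', g ω'))) ω := by
    refine e1_pr_congr μ _ _ ω fun ω' _ => ?_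
    simp only [Prod.mk.injEq]
    tauto
  rw [h1]
  ring

open Classical in
/-- indicator of a proposition -/
noncomputable def e1_ind (p : Prop) : ℝ := if p then 1 else 0

theorem e1_ind_pos {p : Prop} (h : p) : e1_ind p = 1 := by
  unfold e1_ind
  exact if_pos h

theorem e1_ind_neg {p : Prop} (h : ¬ p) : e1_ind p = 0 := by
  unfold e1_ind
  exact if_neg h

theorem e1_pr_ind {Ω α : Type} [Fintype Ω] (μ : Ω → ℝ) (f : Ω → α) (ω : Ω) :
    pr μ f ω = ∑ ω' : Ω, e1_ind (f ω' = f ω) * μ ω' := by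
  unfold pr
  refine Finset.sum_congr rfl fun ω' _ => ?_
  by_cases h : f ω' = f ω
  · rw [e1_ind_pos h, if_pos h, one_mul]
  · rw [e1_ind_neg h, if_neg h, zero_mul]

theorem e1_submod {Ω α β γ : Type} [Fintype Ω] (μ : Ω → ℝ) (f : Ω → α) (h : Ω → β) (g : Ω → γ)
    (hμ : ∀ ω, 0 ≤ μ ω) : CH μ f (fun ω => (h ω, g ω)) ≤ CH μ f g := by
  classical
  set Phg : Ω → ℝ := pr μ (fun ω' => (h ω', g ω')) with hPhg
  set Pfg : Ω → ℝ := pr μ (fun ω' => (f ω', g ω')) with hPfg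
  set Pall : Ω → ℝ := pr μ (fun ω' => (f ω', (h ω', g ω'))) with hPall
  set Pg : Ω → ℝ := pr μ g with hPg
  have key : ∑ ω, μ ω * Real.logb 2 (Phg ω * Pfg ω / (Pall ω * Pg ω)) ≤ 0 := by
    refine e1_gibbs μ _ hμ ?_ ?_
    · intro ω h0
      have a1 := e1_pr_pos μ (fun ω' => (h ω', g ω')) hμ ω h0
      have a2 := e1_pr_pos μ (fun ω' => (f ω', g ω')) hμ ω h0
      have a3 := e1_pr_pos μ (fun ω' => (f ω', (h ω', g ω'))) hμ ω h0
      have a4 := e1_pr_pos μ g hμ ω h0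
      exact div_pos (mul_pos a1 a2) (mul_pos a3 a4)
    · have e1 : ∀ ω, μ ω * (Phg ω * Pfg ω / (Pall ω * Pg ω)) =
          ∑ ω1, ∑ ω2, (e1_ind ((h ω1, g ω1) = (h ω, g ω)) * μ ω1) *
            (e1_ind ((f ω2, g ω2) = (f ω, g ω)) * μ ω2) * (μ ω / (Pall ω * Pg ω)) := by
        intro ω
        have : μ ω * (Phg ω * Pfg ω / (Pall ω * Pg ω)) = (Phg ω * Pfg ω) * (μ ω / (Pall ω * Pg ω)) := by ring
        rw [this, hPhg, hPfg, e1_pr_ind, e1_pr_ind, Finset.sum_mul_sum, Finset.sum_mul]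
        refine Finset.sum_congr rfl fun ω1 _ => ?_
        rw [Finset.sum_mul]
      rw [Finset.sum_congr rfl (fun ω _ => e1 ω), Finset.sum_comm]
      refine Finset.sum_le_sum fun ω1 _ => ?_
      rw [Finset.sum_comm]
      have e2 : ∀ ω2, (∑ ω, (e1_ind ((h ω1, g ω1) = (h ω, g ω)) * μ ω1) *
            (e1_ind ((f ω2, g ω2) = (f ω, g ω)) * μ ω2) * (μ ω / (Pall ω * Pg ω))) ≤
          (e1_ind (g ω2 = g ω1) * μ ω2) * (μ ω1 / Pg ω1) := by
        intro ω2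
        by_cases hg : g ω2 = g ω1
        · rw [e1_ind_pos hg]
          set S : Finset Ω := univ.filter (fun ω => (h ω1, g ω1) = (h ω, g ω) ∧ (f ω2, g ω2) = (f ω, g ω)) with hS
          have e3 : (∑ ω, (e1_ind ((h ω1, g ω1) = (h ω, g ω)) * μ ω1) *
            (e1_ind ((f ω2, g ω2) = (f ω, g ω)) * μ ω2) * (μ ω / (Pall ω * Pg ω))) =
              ∑ ω ∈ S, μ ω1 * μ ω2 / Pg ω1 * (μ ω / Pall ω) := by
            rw [← Finset.sum_subset (Finset.subset_univ S)]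
            · refine Finset.sum_congr rfl fun ω hω => ?_
              simp only [hS, Finset.mem_filter, Finset.mem_univ, true_and] at hω
              rw [e1_ind_pos hω.1, e1_ind_pos hω.2]
              have : Pg ω = Pg ω1 := by
                rw [hPg]
                exact e1_pr_atom μ g ω ω1 (Prod.ext_iff.1 hω.1).2.symm
              rw [this]
              ring
            · intro ω _ hω
              simp only [hS, Finset.mem_filter, Finset.mem_univ, true_and, not_and_or] at hω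
              rcases hω with hω | hω
              · rw [e1_ind_neg hω]
                ring
              · rw [e1_ind_neg hω]
                ring
          rw [e3, ← Finset.mul_sum]
          have e4 : ∑ ω ∈ S, μ ω / Pall ω ≤ 1 := by
            refine e1_sum_div_le μ _ hμ S ?_
            intro ω hω ω' hω'
            simp only [hS, Finset.mem_filter, Finset.mem_univ, true_and, Prod.mk.injEq] at hω hω'
            simp only [Prod.mk.injEq]
            refine ⟨?_, ?_, ?_⟩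
            · rw [← hω.2.1, ← hω'.2.1]
            · rw [← hω.1.1, ← hω'.1.1]
            · rw [← hω.1.2, ← hω'.1.2]
          have e5 : 0 ≤ μ ω1 * μ ω2 / Pg ω1 :=
            div_nonneg (mul_nonneg (hμ _) (hμ _)) (e1_pr_nonneg μ g hμ ω1)
          calc μ ω1 * μ ω2 / Pg ω1 * ∑ ω ∈ S, μ ω / Pall ω ≤ μ ω1 * μ ω2 / Pg ω1 * 1 :=
                mul_le_mul_of_nonneg_left e4 e5
            _ = 1 * μ ω2 * (μ ω1 / Pg ω1) := by ring
        · rw [e1_ind_neg hg, zero_mul, zero_mul]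
          refine le_of_eq (Finset.sum_eq_zero fun ω _ => ?_)
          by_cases c1 : (h ω1, g ω1) = (h ω, g ω)
          · by_cases c2 : (f ω2, g ω2) = (f ω, g ω)
            · exact absurd ((Prod.ext_iff.1 c2).2.trans (Prod.ext_iff.1 c1).2.symm) hg
            · rw [e1_ind_neg c2]
              ring
          · rw [e1_ind_neg c1]
            ring
      refine (Finset.sum_le_sum fun ω2 _ => e2 ω2).trans ?_
      rw [← Finset.sum_mul, ← e1_pr_ind μ g ω1]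
      by_cases h0 : μ ω1 = 0
      · simp [h0]
      · have := e1_pr_pos μ g hμ ω1 h0
        rw [hPg]
        field_simp
        exact le_rfl
  unfold CH
  rw [← sub_nonpos, ← Finset.sum_sub_distrib]
  refine le_trans (le_of_eq (Finset.sum_congr rfl fun ω _ => ?_)) key
  by_cases h0 : μ ω = 0
  · simp [h0]
  · have a1 := e1_pr_pos μ (fun ω' => (h ω', g ω')) hμ ω h0
    have a2 := e1_pr_pos μ (fun ω' => (f ω', g ω')) hμ ω h0
    have a3 := e1_pr_pos μ (fun ω' => (f ω', (h ω', g ω'))) hμ ω h0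
    have a4 := e1_pr_pos μ g hμ ω h0
    rw [hPhg, hPfg, hPall, hPg, Real.logb_div (mul_pos a1 a2).ne' (mul_pos a3 a4).ne',
      Real.logb_mul a1.ne' a2.ne', Real.logb_mul a3.ne' a4.ne']
    ring

theorem st_E1 : ST_E1 := by
  intro Ω α β γ _ μ f h g hμ
  exact ⟨e1_nonneg μ f g hμ, e1_chain μ f h g, e1_submod μ f h g hμ⟩

end Pool.Agent.Helper69.RK
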